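import Pool.Agent.H14.Iv1
set_option autoImplicit false

open Finset

theorem Pool.Agent.Results.MP_739a3c_co.MinTerm.result (m : ℕ) (d : Fin (m + 1) → ℝ)
    (hd : ∀ t, 0 < d t) (i j k l : Fin m → ℕ)
    (_hadm : ∀ r, i r < j r ∧ j r ≤ k r ∧ k r < l r ∧ l r ≤ m + 1)
    (hli : LinearIndependent ℝ fun r (t : Fin (m + 1)) =>
      (if i r ≤ t ∧ (t : ℕ) < j r then (1 : ℝ) else 0) - if k r ≤ t ∧ (t : ℕ) < l r then 1 else 0)
    (heq : ∀ r, ∑ t ∈ univ.filter (fun t : Fin (m + 1) => i r ≤ t ∧ (t : ℕ) < j r), d t =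
      ∑ t ∈ univ.filter (fun t : Fin (m + 1) => k r ≤ t ∧ (t : ℕ) < l r), d t) (t : Fin (m + 1)) :
    ∑ s, d s ≤ 2 ^ m * d t :=
  Pool.Agent.H14.Iv.main m d hd i j k l hli heq t
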